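import Pool.Agent.H1Tv.Interval

/-!
# MP_ce8dea_co: constraints on a failure of monotonicity of the Tverberg property

The definitions used in the statement, `IsComplex`, `PartitionInduced`, `IsTverberg` and
`GeneralPosition`, are in `Pool.Agent.H1Tv.Main` and `Pool.Agent.H1Tv.Clusters`.

* A complex which is `1`-Tverberg consists of the sets of intervals with a common point of a family
  of intervals of the line (`intervals_of_one`). Such a complex is `d`-Tverberg for every `d`
  (`interval_tverberg`): cut the point set into consecutive blocks by parallel hyperplanes, one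
  block for each left endpoint, and distribute the points of each block, by Tverberg's theorem,
  over the classes whose interval contains the endpoint.
* A complex with `f` facets is `d`-Tverberg for all `d ≥ max 1 (f - 1)` (`core`).
-/

namespace Pool.Agent.Results.MP_ce8dea_co.MonotonicityConstraints

open Pool.Agent.H1Tv

/-- The facets (inclusion-maximal faces) of `K`. -/
def facets {V : Type} (K : Set (Finset V)) : Set (Finset V) :=
  {F | F ∈ K ∧ ∀ G ∈ K, F ⊆ G → F = G}

/-- Every finite abstract simplicial complex `K` with `f` facets is `d`-Tverberg for all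
`d ≥ max 1 (f - 1)`. -/
theorem of_facets (V : Type) [Fintype V] [Nonempty V] (K : Set (Finset V)) (hK : IsComplex K)
    (d : ℕ) (hd1 : 1 ≤ d) (hd : (facets K).ncard ≤ d + 1) : IsTverberg K d := by
  classical
  have hfin : (facets K).Finite := Set.toFinite _
  set A : Finset (Finset V) := hfin.toFinset with hA
  have hAc : A.card = (facets K).ncard := by
    rw [Set.ncard_eq_toFinset_card (facets K) hfin]
  have hAd : A.card ≤ d + 1 := by omega
  have hempty : (∅ : Finset V) ∈ K :=
    hK.down_closed ∅ {Classical.arbitrary V} (Finset.empty_subset _) (hK.singleton_mem _)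
  have hAmem : ∀ F, F ∈ A ↔ F ∈ facets K := by
    intro F; rw [hA, Set.Finite.mem_toFinset]
  refine core K hK d (fun j => if h : j < A.card then ((A.equivFin.symm ⟨j, h⟩ : A) : Finset V)
    else ∅) ?_ ?_
  · intro j _
    split_ifs with h
    · exact ((hAmem _).1 (A.equivFin.symm ⟨j, h⟩).2).1
    · exact hempty
  · intro F hF
    obtain ⟨G, hFG, hG⟩ := (Set.toFinite K).exists_le_maximal hF
    have hGA : G ∈ A := by
      rw [hAmem]
      refine ⟨hG.prop, fun G' hG' hGG' => ?_⟩
      exact le_antisymm hGG' (hG.2 hG' hGG')
    refine ⟨(A.equivFin ⟨G, hGA⟩ : ℕ), ?_, ?_⟩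
    · have := (A.equivFin ⟨G, hGA⟩).2
      omega
    · have h1 := (A.equivFin ⟨G, hGA⟩).2
      simp only [h1, dif_pos, Fin.eta, Equiv.symm_apply_apply]
      exact hFG

/-- Let `K` be a finite abstract simplicial complex with at least one vertex which is
`i`-Tverberg but not `j`-Tverberg, where `1 ≤ i < j`. Then `2 ≤ i`, and `K` has at least `j + 2`
facets. In particular a `1`-Tverberg complex is `d`-Tverberg for every `d ≥ 1`, and the answer to
the monotonicity question is positive for complexes with at most four facets. -/
theorem result (V : Type) [Fintype V] [Nonempty V] (K : Set (Finset V)) (hK : IsComplex K)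
    (i j : ℕ) (hi : 1 ≤ i) (hij : i < j) (h1 : IsTverberg K i) (h2 : ¬ IsTverberg K j) :
    2 ≤ i ∧ j + 2 ≤ (facets K).ncard := by
  constructor
  · by_contra hcon
    have hi1 : i = 1 := by omega
    subst hi1
    obtain ⟨l, r, hlr, hF⟩ := intervals_of_one K h1
    exact h2 (interval_tverberg K l r hlr hF j)
  · by_contra hcon
    exact h2 (of_facets V K hK j (by omega) (by omega))

end Pool.Agent.Results.MP_ce8dea_co.MonotonicityConstraints
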